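import Pool.Agent.TH372.Pet.Search

set_option autoImplicit false

/-!
A cubic graph with 112 vertices and 168 edges that has no cycle-continuous map to the Petersen
graph.
-/

namespace Pool.Agent.TH372.Pet

open Finset Pool.Agent.H160R2.CC Pool.Agent.H160R2.CC.MGraph

/-- first ends of the edges, one byte each -/
def sN : ℕ := 0x5e5e58586445455d5d6a311c1c3032311d1d0d0d0b1929180b192818282b615a424259474759605a5f30464141572940562a3356554b36364a3d3d4a544b25161624262517170a0a02070f0602070e060e1148382020373f3f374c3849243e1f1f350f1e341027340c1b2d1a0c1b2c1a2c2f655c44445b6d6b5b6b5c030913080309120812154f3c23233b53513b513c432e5022223a1321391466390104044d6352000001000505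

/-- second ends of the edges, one byte each -/
def tN : ℕ := 0x646a6a69695e5d696e6e46313032463333321d1c192b2b29182a2a28404068615a596861606067676e455f58575f41565742476863554b4a6355545462623e2524263e27272617160711110f0610100e1e1e4e4e3837484e4c4c4d4d623d493635491f3435203f481b2f2f2d1a2e2e2c43436d6d5c5b656f6f6b6c6c0915151308141412212153533c3b4f66665152525044652d3a5022393a236f4f050b0a646c67030204010d0c

/-- the three edges at each vertex, one byte each -/
def qN : ℕ := 0x300d2f9f9e7f3530342d2c072f2e2da69ea5a4a3a07485898180061c0d1b15313508a3a7076f736b6a4b8984888382817f7a7da7a2a6a1a09f342c3332312e888087868582a57ca47b7a77787774736e726d6c6b211c201918061b1a191712150c1d215550544d4c084f4e4d726a71706f6c4b46494051558475837d999da27ea13316323736178776867c797b8b8a7850414f4965696e4a6d20181f1e1d1a13120f100f0c544c5352514e7148704746434443409875979a99969d989c9b7e9a3e363d3a16393d143c393837928a918e768d9179908d8c8b644163666562696468674a661f0e1e1411132322105342524845475756449796959c949b3f3a3e3c3b38938e92908f8c6362616860672a2229260e252911282524235e565d5a42595d455c595857959401003b3f0a8f936160092b262a2827245f5a5e5c5b580b01000a030905272b045b5f0b0302050402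

/-- byte `i` of `x` -/
def byte (x i : ℕ) : ℕ := (x >>> (8 * i)) % 256

/-- first end of an edge -/
def srcF (e : Fin 168) : Fin 112 := Fin.ofNat 112 (byte sN e.val)

/-- second end of an edge -/
def tgtF (e : Fin 168) : Fin 112 := Fin.ofNat 112 (byte tN e.val)

/-- the graph with 112 vertices and 168 edges; edge `e` joins vertices `byte sN e` and
`byte tN e` -/
def ceG : MGraph where
  V := Fin 112
  E := Fin 168
  src := srcF
  tgt := tgtF

/-- the numbers below `n` -/
def rg (n : ℕ) : List ℕ := List.range n

lemma mem_rg {n k : ℕ} (h : k < n) : k ∈ rg n := List.mem_range.2 h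

/-- equality of booleans -/
def beqB (a b : Bool) : Bool := cond a b (!b)

lemma beqB_eq {a b : Bool} : beqB a b = true ↔ a = b := by revert a b; decide

/-- incidence check -/
def chkInc : Bool :=
  allL (fun v => allL (fun e =>
    beqB (xor (Nat.beq (byte sN e) v) (Nat.beq (byte tN e) v))
      (Nat.beq (byte qN (3 * v)) e || (Nat.beq (byte qN (3 * v + 1)) e ||
        Nat.beq (byte qN (3 * v + 2)) e))) (rg 168)) (rg 112)

/-- end check -/
def chkEnds : Bool :=
  allL (fun e => Nat.blt (byte sN e) (byte tN e) && Nat.blt (byte tN e) 112) (rg 168)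

/-- star check -/
def chkSt : Bool :=
  allL (fun v => Nat.blt (byte qN (3 * v)) 168 && (Nat.blt (byte qN (3 * v + 1)) 168 &&
    (Nat.blt (byte qN (3 * v + 2)) 168 && (!(Nat.beq (byte qN (3 * v)) (byte qN (3 * v + 1))) &&
    (!(Nat.beq (byte qN (3 * v)) (byte qN (3 * v + 2))) &&
      !(Nat.beq (byte qN (3 * v + 1)) (byte qN (3 * v + 2)))))))) (rg 112)

lemma chkInc_ok : chkInc = true := by decide +kernel
lemma chkEnds_ok : chkEnds = true := by decide +kernel
lemma chkSt_ok : chkSt = true := by decide +kernel

lemma ends (e : ℕ) (he : e < 168) : byte sN e < byte tN e ∧ byte tN e < 112 := by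
  have h := allL_get chkEnds_ok (mem_rg he)
  simpa using h

lemma nbeq {a b : ℕ} (h : (!(Nat.beq a b)) = true) : a ≠ b := by
  rintro rfl
  simp at h

lemma stars (v : ℕ) (hv : v < 112) : byte qN (3 * v) < 168 ∧ byte qN (3 * v + 1) < 168 ∧
    byte qN (3 * v + 2) < 168 ∧ byte qN (3 * v) ≠ byte qN (3 * v + 1) ∧
    byte qN (3 * v) ≠ byte qN (3 * v + 2) ∧ byte qN (3 * v + 1) ≠ byte qN (3 * v + 2) := by
  have h := allL_get chkSt_ok (mem_rg hv)
  simp only [Bool.and_eq_true] at h
  obtain ⟨h1, h2, h3, h4, h5, h6⟩ := h
  exact ⟨by simpa using h1, by simpa using h2, by simpa using h3, nbeq h4, nbeq h5, nbeq h6⟩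

/-- the three edges at a vertex -/
def st3 (v : Fin 112) : Fin 3 → Fin 168 :=
  ![⟨byte qN (3 * v.val), (stars v.val v.isLt).1⟩,
    ⟨byte qN (3 * v.val + 1), (stars v.val v.isLt).2.1⟩,
    ⟨byte qN (3 * v.val + 2), (stars v.val v.isLt).2.2.1⟩]

lemma src_val (e : Fin 168) : (srcF e).val = byte sN e.val := by
  have h := ends e.val e.isLt
  simp only [srcF, Fin.ofNat]
  exact Nat.mod_eq_of_lt (h.1.trans h.2)

lemma tgt_val (e : Fin 168) : (tgtF e).val = byte tN e.val := by
  have h := ends e.val e.isLt
  simp only [tgtF, Fin.ofNat]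
  exact Nat.mod_eq_of_lt h.2

lemma st3_inj (v : Fin 112) : Function.Injective (st3 v) := by
  obtain ⟨_, _, _, h01, h02, h12⟩ := stars v.val v.isLt
  have e0 : (st3 v 0).val = byte qN (3 * v.val) := rfl
  have e1 : (st3 v 1).val = byte qN (3 * v.val + 1) := rfl
  have e2 : (st3 v 2).val = byte qN (3 * v.val + 2) := rfl
  have k01 : st3 v 0 ≠ st3 v 1 := fun h => h01 (by rw [← e0, ← e1, h])
  have k02 : st3 v 0 ≠ st3 v 2 := fun h => h02 (by rw [← e0, ← e2, h])
  have k12 : st3 v 1 ≠ st3 v 2 := fun h => h12 (by rw [← e1, ← e2, h])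
  intro i j hij
  fin_cases i <;> fin_cases j <;> first
    | rfl
    | exact absurd hij k01
    | exact absurd hij k02
    | exact absurd hij k12
    | exact absurd hij.symm k01
    | exact absurd hij.symm k02
    | exact absurd hij.symm k12

lemma inc_eq (v : Fin 112) (e : Fin 168) :
    ((if srcF e = v then (1 : ZMod 2) else 0) + (if tgtF e = v then 1 else 0)) =
      if ∃ i, st3 v i = e then 1 else 0 := by
  have h := allL_get (allL_get chkInc_ok (mem_rg v.isLt)) (mem_rg e.isLt)
  rw [beqB_eq] at h
  have hne : byte sN e.val ≠ byte tN e.val := (ends e.val e.isLt).1.ne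
  have hs : (srcF e = v) ↔ byte sN e.val = v.val := by
    rw [← src_val]; exact Fin.ext_iff
  have ht : (tgtF e = v) ↔ byte tN e.val = v.val := by
    rw [← tgt_val]; exact Fin.ext_iff
  have hex : (∃ i, st3 v i = e) ↔ (byte qN (3 * v.val) = e.val ∨ byte qN (3 * v.val + 1) = e.val ∨
      byte qN (3 * v.val + 2) = e.val) := by
    constructor
    · rintro ⟨i, rfl⟩
      fin_cases i
      · exact Or.inl rfl
      · exact Or.inr (Or.inl rfl)
      · exact Or.inr (Or.inr rfl)
    · rintro (h | h | h)
      · exact ⟨0, Fin.ext h⟩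
      · exact ⟨1, Fin.ext h⟩
      · exact ⟨2, Fin.ext h⟩
  have hiff : (byte sN e.val = v.val ∨ byte tN e.val = v.val) ↔ (∃ i, st3 v i = e) := by
    rw [hex]
    have hb : ∀ a b : ℕ, (Nat.beq a b = true) ↔ a = b := fun a b => by simp
    rw [← hb (byte sN e.val), ← hb (byte tN e.val), ← hb (byte qN (3 * v.val)),
      ← hb (byte qN (3 * v.val + 1)), ← hb (byte qN (3 * v.val + 2)), ← Bool.or_eq_true,
      ← Bool.or_eq_true, ← Bool.or_eq_true, ← h]
    have hx : ¬ (Nat.beq (byte sN e.val) v.val = true ∧ Nat.beq (byte tN e.val) v.val = true) := by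
      rw [hb, hb]; rintro ⟨h1, h2⟩; exact hne (h1.trans h2.symm)
    revert hx
    generalize Nat.beq (byte sN e.val) v.val = x
    generalize Nat.beq (byte tN e.val) v.val = y
    revert x y
    decide
  by_cases h1 : byte sN e.val = v.val
  · have h2 : ¬ byte tN e.val = v.val := fun h2 => hne (h1.trans h2.symm)
    rw [if_pos (hs.2 h1), if_neg (fun h => h2 (ht.1 h)), if_pos (hiff.1 (Or.inl h1))]
    rfl
  · by_cases h2 : byte tN e.val = v.val
    · rw [if_neg (fun h => h1 (hs.1 h)), if_pos (ht.2 h2), if_pos (hiff.1 (Or.inr h2))]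
      rfl
    · rw [if_neg (fun h => h1 (hs.1 h)), if_neg (fun h => h2 (ht.1 h)), if_neg]
      · rfl
      · intro h
        rcases hiff.2 h with h | h
        · exact h1 h
        · exact h2 h

lemma ce_star (v : Fin 112) : ceG.IsStar v (st3 v) := ⟨st3_inj v, inc_eq v⟩

/-- six cycles of the Petersen graph -/
def cy : Fin 6 → Fin 15 → Bool :=
  ![![true, true, true, true, true, false, false, false, false, false, false, false, false, false, false],
    ![true, true, false, false, false, true, false, true, false, false, true, false, false, false, false],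
    ![true, false, false, false, true, false, true, false, false, true, false, false, false, false, true],
    ![true, false, false, false, false, true, true, false, false, false, false, true, false, true, false],
    ![false, true, true, false, false, false, true, false, true, false, false, true, false, false, false],
    ![false, true, false, false, false, false, true, true, false, false, false, false, true, false, true]]

/-- the corresponding flows -/
def cf (k : Fin 6) (y : Fin 15) : ZMod 2 := if cy k y = true then 1 else 0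

lemma cf_flow' : ∀ (k : Fin 6) (v : Fin 10), ∑ y : Fin 15,
    ((if (![0, 1, 2, 3, 4, 0, 1, 2, 3, 4, 5, 6, 7, 8, 9] : Fin 15 → Fin 10) y
      = v then (1 : ZMod 2) else 0) +
    (if (![1, 2, 3, 4, 0, 5, 6, 7, 8, 9, 7, 8, 9, 5, 6] : Fin 15 → Fin 10) y = v then 1 else 0)) *
    (if cy k y = true then 1 else 0) = 0 := by
  decide +kernel

lemma cf_flow (k : Fin 6) : petersen.Flow (cf k) := fun v => cf_flow' k v

lemma cf_star : ∀ a b c : Fin 15, (∀ k : Fin 6, cf k a + cf k b + cf k c = 0) →
    bV a.val b.val c.val = true := by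
  decide +kernel

lemma star_V (f : Fin 168 → Fin 15) (hf : CC ceG petersen f) (v : Fin 112) :
    V (f (st3 v 0)).val (f (st3 v 1)).val (f (st3 v 2)).val := by
  apply bV_get
  apply cf_star
  intro k
  have h := hf (cf k) (cf_flow k) v
  rw [star_sum (ce_star v)] at h
  exact h

end Pool.Agent.TH372.Pet
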