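import Pool.Agent.TH372.Pet.Graph

set_option autoImplicit false

/-!
The graph `ceG` has no cycle-continuous map to the Petersen graph.
-/

namespace Pool.Agent.TH372.Pet

open Finset Pool.Agent.H160R2.CC Pool.Agent.H160R2.CC.MGraph

/-- some vertex has the three edges `a`, `b`, `c`, in this order -/
def isStar (a b c : ℕ) : Bool :=
  !(allL (fun v => !(Nat.beq (byte qN (3 * v)) a && (Nat.beq (byte qN (3 * v + 1)) b &&
    Nat.beq (byte qN (3 * v + 2)) c))) (rg 112))

lemma isStar_get {a b c : ℕ} (h : isStar a b c = true) : ∃ v : Fin 112,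
    byte qN (3 * v.val) = a ∧ byte qN (3 * v.val + 1) = b ∧ byte qN (3 * v.val + 2) = c := by
  unfold isStar at h
  by_contra hno
  have : allL (fun v => !(Nat.beq (byte qN (3 * v)) a && (Nat.beq (byte qN (3 * v + 1)) b &&
    Nat.beq (byte qN (3 * v + 2)) c))) (rg 112) = true := by
    rw [allL_iff]
    intro v hv
    by_contra hb
    simp only [Bool.not_eq_true', Bool.not_eq_false, Bool.and_eq_true, Nat.beq_eq] at hb
    exact hno ⟨⟨v, List.mem_range.1 hv⟩, hb.1, hb.2.1, hb.2.2⟩
  rw [this] at h
  exact absurd h (by decide)

/-- the values of `f` as numbers -/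
def val (f : Fin 168 → Fin 15) (n : ℕ) : ℕ := if h : n < 168 then (f ⟨n, h⟩).val else 0

lemma val_V (f : Fin 168 → Fin 15) (hf : CC ceG petersen f) (a b c : ℕ)
    (h : isStar a b c = true) : V (val f a) (val f b) (val f c) := by
  obtain ⟨v, rfl, rfl, rfl⟩ := isStar_get h
  obtain ⟨h0, h1, h2, _⟩ := stars v.val v.isLt
  have h := star_V f hf v
  unfold val
  rw [dif_pos h0, dif_pos h1, dif_pos h2]
  exact h

theorem no_cc (f : Fin 168 → Fin 15) (hf : CC ceG petersen f) : False := by
  have hV := val_V f hf
  have q0 : TQ (val f 6) (val f 12) (val f 13) (val f 14) := Q_ok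
    (hV 6 24 25 (by decide +kernel))
    (hV 25 26 27 (by decide +kernel))
    (hV 27 13 28 (by decide +kernel))
    (hV 26 29 30 (by decide +kernel))
    (hV 30 14 31 (by decide +kernel))
    (hV 31 24 32 (by decide +kernel))
    (hV 32 28 33 (by decide +kernel))
    (hV 33 29 12 (by decide +kernel))
  have q1 : TQ (val f 16) (val f 5) (val f 14) (val f 17) := Q_ok
    (hV 16 34 35 (by decide +kernel))
    (hV 35 36 37 (by decide +kernel))
    (hV 37 14 38 (by decide +kernel))
    (hV 36 39 40 (by decide +kernel))
    (hV 40 17 41 (by decide +kernel))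
    (hV 41 34 42 (by decide +kernel))
    (hV 42 38 43 (by decide +kernel))
    (hV 43 39 5 (by decide +kernel))
  have q2 : TQ (val f 7) (val f 21) (val f 13) (val f 22) := Q_ok
    (hV 7 44 45 (by decide +kernel))
    (hV 45 46 47 (by decide +kernel))
    (hV 47 13 48 (by decide +kernel))
    (hV 46 49 50 (by decide +kernel))
    (hV 50 22 51 (by decide +kernel))
    (hV 51 44 52 (by decide +kernel))
    (hV 52 48 53 (by decide +kernel))
    (hV 53 49 21 (by decide +kernel))
  have q3 : TQ (val f 23) (val f 0) (val f 22) (val f 20) := Q_ok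
    (hV 23 54 55 (by decide +kernel))
    (hV 55 56 57 (by decide +kernel))
    (hV 57 22 58 (by decide +kernel))
    (hV 56 59 60 (by decide +kernel))
    (hV 60 20 61 (by decide +kernel))
    (hV 61 54 62 (by decide +kernel))
    (hV 62 58 63 (by decide +kernel))
    (hV 63 59 0 (by decide +kernel))
  have q4 : TQ (val f 8) (val f 64) (val f 65) (val f 66) := Q_ok
    (hV 8 76 77 (by decide +kernel))
    (hV 77 78 79 (by decide +kernel))
    (hV 79 65 80 (by decide +kernel))
    (hV 78 81 82 (by decide +kernel))
    (hV 82 66 83 (by decide +kernel))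
    (hV 83 76 84 (by decide +kernel))
    (hV 84 80 85 (by decide +kernel))
    (hV 85 81 64 (by decide +kernel))
  have q5 : TQ (val f 68) (val f 4) (val f 66) (val f 69) := Q_ok
    (hV 68 86 87 (by decide +kernel))
    (hV 87 88 89 (by decide +kernel))
    (hV 89 66 90 (by decide +kernel))
    (hV 88 91 92 (by decide +kernel))
    (hV 92 69 93 (by decide +kernel))
    (hV 93 86 94 (by decide +kernel))
    (hV 94 90 95 (by decide +kernel))
    (hV 95 91 4 (by decide +kernel))
  have q6 : TQ (val f 9) (val f 73) (val f 65) (val f 74) := Q_ok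
    (hV 9 96 97 (by decide +kernel))
    (hV 97 98 99 (by decide +kernel))
    (hV 99 65 100 (by decide +kernel))
    (hV 98 101 102 (by decide +kernel))
    (hV 102 74 103 (by decide +kernel))
    (hV 103 96 104 (by decide +kernel))
    (hV 104 100 105 (by decide +kernel))
    (hV 105 101 73 (by decide +kernel))
  have q7 : TQ (val f 75) (val f 7) (val f 74) (val f 72) := Q_ok
    (hV 75 106 107 (by decide +kernel))
    (hV 107 108 109 (by decide +kernel))
    (hV 109 74 110 (by decide +kernel))
    (hV 108 111 112 (by decide +kernel))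
    (hV 112 72 113 (by decide +kernel))
    (hV 113 106 114 (by decide +kernel))
    (hV 114 110 115 (by decide +kernel))
    (hV 115 111 7 (by decide +kernel))
  have q8 : TQ (val f 6) (val f 116) (val f 117) (val f 118) := Q_ok
    (hV 6 128 129 (by decide +kernel))
    (hV 129 130 131 (by decide +kernel))
    (hV 131 117 132 (by decide +kernel))
    (hV 130 133 134 (by decide +kernel))
    (hV 134 118 135 (by decide +kernel))
    (hV 135 128 136 (by decide +kernel))
    (hV 136 132 137 (by decide +kernel))
    (hV 137 133 116 (by decide +kernel))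
  have q9 : TQ (val f 120) (val f 10) (val f 118) (val f 121) := Q_ok
    (hV 120 138 139 (by decide +kernel))
    (hV 139 140 141 (by decide +kernel))
    (hV 141 118 142 (by decide +kernel))
    (hV 140 143 144 (by decide +kernel))
    (hV 144 121 145 (by decide +kernel))
    (hV 145 138 146 (by decide +kernel))
    (hV 146 142 147 (by decide +kernel))
    (hV 147 143 10 (by decide +kernel))
  have q10 : TQ (val f 1) (val f 125) (val f 117) (val f 126) := Q_ok
    (hV 1 148 149 (by decide +kernel))
    (hV 149 150 151 (by decide +kernel))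
    (hV 151 117 152 (by decide +kernel))
    (hV 150 153 154 (by decide +kernel))
    (hV 154 126 155 (by decide +kernel))
    (hV 155 148 156 (by decide +kernel))
    (hV 156 152 157 (by decide +kernel))
    (hV 157 153 125 (by decide +kernel))
  have q11 : TQ (val f 127) (val f 8) (val f 126) (val f 124) := Q_ok
    (hV 127 158 159 (by decide +kernel))
    (hV 159 160 161 (by decide +kernel))
    (hV 161 126 162 (by decide +kernel))
    (hV 160 163 164 (by decide +kernel))
    (hV 164 124 165 (by decide +kernel))
    (hV 165 158 166 (by decide +kernel))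
    (hV 166 162 167 (by decide +kernel))
    (hV 167 163 8 (by decide +kernel))
  have m0 : TM (val f 5) (val f 6) (val f 0) (val f 7) := M_ok
    (hV 12 15 16 (by decide +kernel))
    (hV 15 18 19 (by decide +kernel))
    (hV 19 17 20 (by decide +kernel))
    (hV 21 18 23 (by decide +kernel))
    q0 q1 q2 q3
  have m1 : TM (val f 4) (val f 8) (val f 7) (val f 9) := M_ok
    (hV 64 67 68 (by decide +kernel))
    (hV 67 70 71 (by decide +kernel))
    (hV 71 69 72 (by decide +kernel))
    (hV 73 70 75 (by decide +kernel))
    q4 q5 q6 q7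
  have m2 : TM (val f 10) (val f 6) (val f 8) (val f 1) := M_ok
    (hV 116 119 120 (by decide +kernel))
    (hV 119 122 123 (by decide +kernel))
    (hV 123 121 124 (by decide +kernel))
    (hV 125 122 127 (by decide +kernel))
    q8 q9 q10 q11
  exact G_ok
    (hV 2 4 5 (by decide +kernel))
    (hV 9 3 10 (by decide +kernel))
    (hV 0 1 11 (by decide +kernel))
    (hV 2 3 11 (by decide +kernel))
    m0 m1 m2

theorem not_succ : ¬ Succ ceG petersen := by
  rintro h
  obtain ⟨f, hf⟩ := succ_iff.1 h
  exact no_cc f hf

end Pool.Agent.TH372.Pet
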