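import Pool.Agent.TH372.Pet.NoMap

set_option autoImplicit false

/-!
The graph `ceG` is simple, cubic and 3-edge-connected.
-/

namespace Pool.Agent.TH372.Pet

open Finset Pool.Agent.H160R2.CC Pool.Agent.H160R2.CC.MGraph

lemma deg_three' : ∀ v : Fin 112,
    #{e ∈ (Finset.univ : Finset (Fin 168)) | srcF e = v} +
      #{e ∈ (Finset.univ : Finset (Fin 168)) | tgtF e = v} = 3 := by
  decide +kernel

lemma deg_three (v : ceG.V) : ceG.deg Finset.univ v = 3 := deg_three' v

lemma loopless' (e : Fin 168) : srcF e ≠ tgtF e := by
  intro h1
  have h2 := (ends e.val e.isLt).1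
  rw [← src_val, ← tgt_val, h1] at h2
  exact lt_irrefl _ h2

lemma loopless (e : ceG.E) : ceG.src e ≠ ceG.tgt e := loopless' e

/-- no two edges have the same ends -/
def chkSimple : Bool :=
  allL (fun e => allL (fun e' => !(Nat.beq (byte sN e') (byte sN e) &&
    Nat.beq (byte tN e') (byte tN e))) (rg e)) (rg 168)

lemma chkSimple_ok : chkSimple = true := by decide +kernel

lemma simple_lt (e e' : Fin 168) (h : e' < e) : ¬ (srcF e' = srcF e ∧ tgtF e' = tgtF e) := by
  rintro ⟨h1, h2⟩
  have h3 := allL_get (allL_get chkSimple_ok (mem_rg e.isLt)) (mem_rg h)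
  have h4 : byte sN e'.val = byte sN e.val := by rw [← src_val, ← src_val, h1]
  have h5 : byte tN e'.val = byte tN e.val := by rw [← tgt_val, ← tgt_val, h2]
  simp [h4, h5] at h3

lemma simple' : Function.Injective (fun e : Fin 168 => s(srcF e, tgtF e)) := by
  intro e e' h
  have h0 : s(srcF e, tgtF e) = s(srcF e', tgtF e') := h
  rw [Sym2.eq_iff] at h0
  rcases h0 with ⟨h1, h2⟩ | ⟨h1, h2⟩
  · rcases lt_trichotomy e e' with h3 | h3 | h3
    · exact absurd ⟨h1, h2⟩ (simple_lt e' e h3)
    · exact h3
    · exact absurd ⟨h1.symm, h2.symm⟩ (simple_lt e e' h3)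
  · exfalso
    have h3 := (ends e.val e.isLt).1
    have h4 := (ends e'.val e'.isLt).1
    rw [← src_val, ← tgt_val, h1, h2] at h3
    rw [← src_val, ← tgt_val] at h4
    exact lt_asymm h3 h4

lemma simple : Function.Injective (fun e : ceG.E => s(ceG.src e, ceG.tgt e)) := simple'

/-- codes of the edges in the cycle space, 64 bits each -/
def cN : ℕ := 0x100000000000000008000000000000000900000000000000060000000000000004000000000000001800000000000000030008000000000002000000000000000100080000000000010000000000000000400c000000000000600c00000000001b80080000000000008000000000000000400000000000000020000000000000002360000000000000c000000000000000e36000000000001be0040000000000001dd00000000000001400000000000000100000000000000f100600000000000f1e8400000000000009d000000000000008000000000000000e820000000000000682000000000000040000000000000002000000000000000100000000000000011000000000000000c0000000000000008000000000000003000000000000000060000000000000004000000000000000200000000000000010000000000000000800000000001b0008000000000000000c00000000000f00000000000000000006000000000000000400000000000f00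060000000000000282000000000000000200000000000001d0000000000000036000000000000002800000000000000001000000000000000080000000000000009000000000000001400000001000000100000000100000018000000000000000600000000000000040000000000000002000000000000000100000000000000004010000000000000601000000000001e800000000000000080000000000000004000000000000000200000000000000020c0000000000000c000000000000000e0c000000000001ee0100000014000001fc00000000000001400000000000000100000000000001e101800010000001e1f100001014000000bc000000000000008000000000000000f08000000000000070800000000000004000000000000000200000000000000028000000140000002a00000000000000160000000000000010000000000000000800000000000000040000000000000006000000000000000200000014000000020000000000003000000000000001e0000000000000000001000000000001d00000001000000030018000000000003001000000000001e00180001000000000308000000000000000800000140000003c000000000000000c000000000000003000000000000000007f001000000000005000000000000000400000000000000040004000000000007000c000000000002f00100000000000200000000000000030008000000000001000800000000000100000000000000008000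000000000000a000000000000000a801000000000000580000000000000040000000000000002000000000000000100000000000000018000000000000000800000000000000080100000300000037c000000000000005000000000000000400000000000000c40e000000000000c7cc00000300000032c0000000000000020000000000000003c200000000000001c20000000000000100000000000000008000000000000000a000000300000000b000000000000030700000000000000040000000000000002000000000000030200000000000003030000000000000001000000300000000100000000000000008000000000000f001000000000000c0000000000000000004000000000000c00a000000000000c008000000000000c00e00000000000000c2000000000000000200000300000030c0000000000000300000000000000000c001b036400000f00d00f03540000000000000001e00d00000014000000000000000000000000000010000030000000000000003000000f00c0140001e00d0000100f0355e00d000000140031e00d0f00d01b0364000000000000000000000f00d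

/-- code of an edge -/
def cd (e : ℕ) : ℕ := (cN >>> (64 * e)) % 2 ^ 57

/-- parents in a spanning tree -/
def pN : ℕ := 0x665d5c5c5b5858565251504d4a494747464545444442424141403d3d3c3c3b3a39383837363635343331302e2c2a29282725242323222120201f1f1e1d1d1c1c1b1b1a1a1919181817171616141312100f0e0d0d0c0c0b0b0a0a09090808070706060505040403030202010100000000

/-- edges to the parents -/
def eN : ℕ := 0xd9f342c2ea5a474061b15086f4b84837da2a1333287867c7b786e6d20181a120c544c4e71704640759d7e163776798b41694a1f1e1310535248474497969c9b3e3a3c38928e908c636268670e112342455795943f3b938f61602a2628245e5a5c5801000a092b275f5b0b0305040200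

/-- the codes sum to zero at each vertex -/
def chkCyc : Bool :=
  allL (fun v => Nat.beq (Nat.xor (cd (byte qN (3 * v))) (cd (byte qN (3 * v + 1))))
    (cd (byte qN (3 * v + 2)))) (rg 112)

/-- the codes are distinct and not zero -/
def chkDist : Bool :=
  allL (fun e => !(Nat.beq (cd e) 0) && allL (fun e' => !(Nat.beq (cd e') (cd e))) (rg e)) (rg 168)

/-- spanning tree check -/
def chkTree : Bool :=
  allL (fun v => Nat.blt (byte pN (v + 1)) (v + 1) && (Nat.blt (byte eN (v + 1)) 168 &&
    ((Nat.beq (byte sN (byte eN (v + 1))) (byte pN (v + 1)) &&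
      Nat.beq (byte tN (byte eN (v + 1))) (v + 1)) ||
    (Nat.beq (byte tN (byte eN (v + 1))) (byte pN (v + 1)) &&
      Nat.beq (byte sN (byte eN (v + 1))) (v + 1))))) (rg 111)

lemma chkCyc_ok : chkCyc = true := by decide +kernel
lemma chkDist_ok : chkDist = true := by decide +kernel
lemma chkTree_ok : chkTree = true := by decide +kernel

/-- the cycles -/
def phi (i : ℕ) (e : Fin 168) : ZMod 2 := if (cd e.val).testBit i = true then 1 else 0

lemma phi_sum (i : ℕ) (v : Fin 112) :
    phi i (st3 v 0) + phi i (st3 v 1) + phi i (st3 v 2) = 0 := by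
  have h := allL_get chkCyc_ok (mem_rg v.isLt)
  have h1 : cd (st3 v 0).val ^^^ cd (st3 v 1).val = cd (st3 v 2).val := by
    have := Nat.eq_of_beq_eq_true h
    exact this
  have h2 : (cd (st3 v 2).val).testBit i =
      xor ((cd (st3 v 0).val).testBit i) ((cd (st3 v 1).val).testBit i) := by
    rw [← h1, Nat.testBit_xor]
  unfold phi
  rw [h2]
  cases (cd (st3 v 0).val).testBit i <;> cases (cd (st3 v 1).val).testBit i <;> decide

lemma phi_flow (i : ℕ) : ceG.Flow (phi i) := fun v =>
  (star_sum (ce_star v) (phi i)).trans (phi_sum i v)

lemma cd_ne_zero (e : Fin 168) : cd e.val ≠ 0 := by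
  have h := allL_get chkDist_ok (mem_rg e.isLt)
  rw [Bool.and_eq_true] at h
  exact nbeq h.1

lemma cd_lt_ne (e e' : Fin 168) (h : e' < e) : cd e'.val ≠ cd e.val := by
  have h1 := allL_get chkDist_ok (mem_rg e.isLt)
  rw [Bool.and_eq_true] at h1
  exact nbeq (allL_get h1.2 (mem_rg h))

lemma cd_inj (e e' : Fin 168) (h : cd e.val = cd e'.val) : e = e' := by
  rcases lt_trichotomy e e' with h3 | h3 | h3
  · exact absurd h (cd_lt_ne e' e h3)
  · exact h3
  · exact absurd h.symm (cd_lt_ne e e' h3)

/-- the cut of a vertex set -/
def cut (S : Finset (Fin 112)) : Finset (Fin 168) := {e | ¬ (srcF e ∈ S ↔ tgtF e ∈ S)}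

lemma cut_sum (S : Finset (Fin 112)) (i : ℕ) : ∑ e ∈ cut S, phi i e = 0 := by
  let p : Fin 112 → ZMod 2 := fun v => if v ∈ S then 1 else 0
  have h : ∑ e : Fin 168, (p (srcF e) + p (tgtF e)) * phi i e = 0 :=
    cut_orth (G := ceG) p (phi_flow i)
  rw [← h, cut, Finset.sum_filter]
  refine Finset.sum_congr rfl (fun e _ => ?_)
  change _ = ((if srcF e ∈ S then (1 : ZMod 2) else 0) + (if tgtF e ∈ S then 1 else 0)) * phi i e
  by_cases h1 : srcF e ∈ S <;> by_cases h2 : tgtF e ∈ S
  · simp only [h1, h2, if_true, not_true, if_false]
    rw [show (1 : ZMod 2) + 1 = 0 from rfl, zero_mul]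
  · simp [h1, h2]
  · simp [h1, h2]
  · simp [h1, h2]

lemma tree_edge (v : ℕ) (hv : v < 111) : ∃ (w : ℕ) (hw : w < v + 1) (e : Fin 168),
    (srcF e = ⟨w, by omega⟩ ∧ tgtF e = ⟨v + 1, by omega⟩) ∨
      (tgtF e = ⟨w, by omega⟩ ∧ srcF e = ⟨v + 1, by omega⟩) := by
  have h := allL_get chkTree_ok (mem_rg hv)
  simp only [Bool.and_eq_true, Bool.or_eq_true, Nat.beq_eq, Nat.blt_eq] at h
  obtain ⟨h1, h2, h3⟩ := h
  refine ⟨byte pN (v + 1), h1, ⟨byte eN (v + 1), h2⟩, ?_⟩
  rcases h3 with h3 | h3
  · refine Or.inl ⟨Fin.ext ?_, Fin.ext ?_⟩
    · rw [src_val]; exact h3.1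
    · rw [tgt_val]; exact h3.2
  · refine Or.inr ⟨Fin.ext ?_, Fin.ext ?_⟩
    · rw [tgt_val]; exact h3.1
    · rw [src_val]; exact h3.2

lemma cut_ne_empty (S : Finset (Fin 112)) (h0 : S.Nonempty) (h1 : S ≠ Finset.univ) :
    cut S ≠ ∅ := by
  intro hc
  have hall : ∀ e : Fin 168, srcF e ∈ S ↔ tgtF e ∈ S := by
    intro e
    by_contra hno
    have : e ∈ cut S := by simp [cut, hno]
    rw [hc] at this
    simp at this
  have key : ∀ n : ℕ, ∀ hn : n < 112, ((⟨n, hn⟩ : Fin 112) ∈ S ↔ (⟨0, by omega⟩ : Fin 112) ∈ S) := by
    intro n
    induction n using Nat.strong_induction_on with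
    | _ n ih =>
      intro hn
      rcases n with _ | n
      · exact Iff.rfl
      · obtain ⟨w, hw, e, he⟩ := tree_edge n (by omega)
        have := ih w hw (by omega)
        rw [← this]
        rcases he with ⟨h2, h3⟩ | ⟨h2, h3⟩
        · rw [← h2, ← h3]; exact (hall e).symm
        · rw [← h2, ← h3]; exact hall e
  by_cases hz : (⟨0, by omega⟩ : Fin 112) ∈ S
  · exact h1 (Finset.eq_univ_of_forall (fun x => (key x.val x.isLt).2 hz))
  · obtain ⟨x, hx⟩ := h0
    exact hz ((key x.val x.isLt).1 hx)

lemma three_le_cut (S : Finset (Fin 112)) (h0 : S.Nonempty) (h1 : S ≠ Finset.univ) :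
    3 ≤ #(cut S) := by
  by_contra hlt
  have hne := cut_ne_empty S h0 h1
  have hpos : 0 < #(cut S) := Finset.card_pos.2 (Finset.nonempty_iff_ne_empty.2 hne)
  have hcase : #(cut S) = 1 ∨ #(cut S) = 2 := by omega
  rcases hcase with h | h
  · obtain ⟨e, he⟩ := Finset.card_eq_one.1 h
    have hz : ∀ i, (cd e.val).testBit i = false := by
      intro i
      have := cut_sum S i
      rw [he, Finset.sum_singleton] at this
      unfold phi at this
      by_contra hb
      rw [if_pos (by simpa using hb)] at this
      exact absurd this (by decide)
    exact cd_ne_zero e (Nat.eq_of_testBit_eq (by simpa using hz))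
  · obtain ⟨e, e', hne', he⟩ := Finset.card_eq_two.1 h
    apply hne'
    apply cd_inj
    apply Nat.eq_of_testBit_eq
    intro i
    have := cut_sum S i
    rw [he, Finset.sum_pair hne'] at this
    unfold phi at this
    revert this
    cases (cd e.val).testBit i <;> cases (cd e'.val).testBit i <;> decide

lemma edge_conn (S : Finset ceG.V) (h0 : S.Nonempty) (h1 : S ≠ Finset.univ) :
    3 ≤ #{e : ceG.E | ¬ (ceG.src e ∈ S ↔ ceG.tgt e ∈ S)} := three_le_cut S h0 h1

lemma no_cutEdge' (S : Finset (Fin 112)) (e : Fin 168)
    (he : ∀ e' : Fin 168, (¬ (srcF e' ∈ S ↔ tgtF e' ∈ S)) ↔ e' = e) : False := by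
  have hcut : cut S = {e} := by
    ext x
    simp only [cut, Finset.mem_filter, Finset.mem_univ, true_and, Finset.mem_singleton]
    exact he x
  have h0 : S.Nonempty := by
    rw [Finset.nonempty_iff_ne_empty]
    rintro rfl
    have := (he e).2 rfl
    simp at this
  have h1 : S ≠ Finset.univ := by
    rintro rfl
    have := (he e).2 rfl
    simp at this
  have := three_le_cut S h0 h1
  rw [hcut, Finset.card_singleton] at this
  omega

lemma no_cutEdge : ¬ ceG.HasCutEdge := fun ⟨S, e, he⟩ => no_cutEdge' S e he

/-- no graph is an atom of the cycle-continuous order -/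
theorem no_atom (A : MGraph) : ¬ A.IsAtom := fun hA => not_succ ((main A hA).2 ceG no_cutEdge)

end Pool.Agent.TH372.Pet
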