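import Pool.Agent.TH372.Pet.Tables

set_option autoImplicit false

/-!
The leg relations of the multipoles `Q` and `M`, and the final contradiction.
-/

namespace Pool.Agent.TH372.Pet

/-- boolean form of `V` -/
def bV (a b c : ℕ) : Bool := !(allL (fun x => !(Nat.beq x.1 b && Nat.beq x.2 c)) (nV a))

lemma bV_get {a b c : ℕ} (h : bV a b c = true) : V a b c := by
  unfold bV at h
  by_contra hno
  have : allL (fun x : ℕ × ℕ => !(Nat.beq x.1 b && Nat.beq x.2 c)) (nV a) = true := by
    rw [allL_iff]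
    rintro ⟨x, y⟩ hx
    by_contra hb
    simp at hb
    obtain ⟨rfl, rfl⟩ := hb
    exact hno hx
  rw [this] at h
  exact absurd h (by decide)

lemma symV_ok : allL (fun a => allL (fun t => bV t.1 a t.2 && bV a t.2 t.1) (nV a)) L15 = true := by
  decide +kernel

lemma V.sym1 {a b c : ℕ} (h : V a b c) : V b a c := by
  have h1 := allL_get (allL_get symV_ok (mem_L15 (lt_of_nV h))) h
  simp only [Bool.and_eq_true] at h1
  exact bV_get h1.1

lemma V.sym2 {a b c : ℕ} (h : V a b c) : V a c b := by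
  have h1 := allL_get (allL_get symV_ok (mem_L15 (lt_of_nV h))) h
  simp only [Bool.and_eq_true] at h1
  exact bV_get h1.2

/-- search through the colourings of `Q` -/
def chkQ : Bool :=
  allL (fun a =>
    allL (fun t0 =>
    allL (fun t1 =>
    allL (fun t2 =>
    allL (fun t3 =>
    allL (fun t4 =>
    gd t4.1 t2.2 (allL (fun t5 =>
    allL (fun t6 =>
    gd t6.1 t3.1 (allL (fun t7 =>
    gd t7.1 t5.1 (bQ a t7.2 t2.1 t6.2)) (nV t4.2))) (nV t5.2)) (nV t1.1))) (nV t3.2)) (nV t0.1)) (nV t1.2)) (nV t0.2)) (nV a)) L15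

lemma chkQ_ok : chkQ = true := by decide +kernel

theorem Q_ok {e0 e1 e2 e3 e4 e5 e6 e7 e8 e9 e10 e11 e12 e13 : ℕ}
    (h0 : V e0 e4 e5)
    (h1 : V e5 e6 e7)
    (h2 : V e7 e2 e8)
    (h3 : V e6 e9 e10)
    (h4 : V e10 e3 e11)
    (h5 : V e11 e4 e12)
    (h6 : V e12 e8 e13)
    (h7 : V e13 e9 e1)
    : TQ e0 e1 e2 e3 := by
  have c := allL_get chkQ_ok (mem_L15 (lt_of_nV (h0)))
  replace c := allL_get c (h0)
  replace c := allL_get c (h1)
  replace c := allL_get c (h2)
  replace c := allL_get c (h5.sym1)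
  replace c := allL_get c (h6)
  replace c := gd_get c
  replace c := allL_get c (h3)
  replace c := allL_get c (h4.sym2)
  replace c := gd_get c
  replace c := allL_get c (h7)
  replace c := gd_get c
  exact bQ_get c

/-- search through the colourings of `M` -/
def chkM : Bool :=
  allL (fun a =>
    allL (fun t0 =>
    allL (fun t1 =>
    allL (fun t2 =>
    allL (fun t3 =>
    gd t3.1 t0.2.2 (allL (fun t4 =>
    gd t4.2.1 t0.2.1 (allL (fun t5 =>
    allL (fun t6 =>
    gd t6.2.1 t4.2.2 (allL (fun t7 =>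
    gd t7.1 t3.2 (gd t7.2.1 t5.2 (bM a t4.1 t7.2.2 t6.1))) (nQ t6.2.2))) (nQ t5.1)) (nV t2.1))) (nQ t1.1))) (nV t2.2)) (nV t1.2)) (nV t0.1)) (nQ a)) L15

lemma chkM_ok : chkM = true := by decide +kernel

theorem M_ok {e0 e1 e2 e3 e4 e5 e6 e7 e8 e9 e10 e11 e12 e13 e14 e15 : ℕ}
    (h0 : V e4 e7 e8)
    (h1 : V e7 e10 e11)
    (h2 : V e11 e9 e12)
    (h3 : V e13 e10 e15)
    (h4 : TQ e1 e4 e5 e6)
    (h5 : TQ e8 e0 e6 e9)
    (h6 : TQ e3 e13 e5 e14)
    (h7 : TQ e15 e2 e14 e12)
    : TM e0 e1 e2 e3 := by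
  have c := allL_get chkM_ok (mem_L15 (lt_of_nQ (h5.sym1)))
  replace c := allL_get c (h5.sym1)
  replace c := allL_get c (h0.sym2.sym1)
  replace c := allL_get c (h1)
  replace c := allL_get c (h2)
  replace c := gd_get c
  replace c := allL_get c (h4.sym1.sym3)
  replace c := gd_get c
  replace c := allL_get c (h3.sym1)
  replace c := allL_get c (h6.sym1)
  replace c := gd_get c
  replace c := allL_get c (h7.sym2)
  replace c := gd_get c
  replace c := gd_get c
  exact bM_get c

/-- search through the colourings of the whole graph -/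
def chkG : Bool :=
  allL (fun a =>
    allL (fun t0 =>
    allL (fun t1 =>
    allL (fun t2 =>
    allL (fun t3 =>
    gd t3.2.1 a (allL (fun t4 =>
    gd t4.2.1 t3.2.2 (allL (fun t5 =>
    gd t5.1 t0.1 (gd t5.2.1 t3.1 (allL (fun t6 =>
    gd t6.1 t1.2 (gd t6.2 t5.2.2 (false))) (nV t4.2.2)))) (nM t4.1))) (nM t2.1))) (nM t2.2)) (nV t1.1)) (nV t0.2)) (nV a)) L15

lemma chkG_ok : chkG = true := by decide +kernel

theorem G_ok {e0 e1 e2 e3 e4 e5 e6 e7 e8 e9 e10 e11 : ℕ}
    (h0 : V e2 e4 e5)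
    (h1 : V e9 e3 e10)
    (h2 : V e0 e1 e11)
    (h3 : V e2 e3 e11)
    (h4 : TM e5 e6 e0 e7)
    (h5 : TM e4 e8 e7 e9)
    (h6 : TM e10 e6 e8 e1)
    : False := by
  have c := allL_get chkG_ok (mem_L15 (lt_of_nV (h2)))
  replace c := allL_get c (h2)
  replace c := allL_get c (h3.sym2.sym1)
  replace c := allL_get c (h0)
  replace c := allL_get c (h4)
  replace c := gd_get c
  replace c := allL_get c (h5)
  replace c := gd_get c
  replace c := allL_get c (h6.sym1.sym2)
  replace c := gd_get c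
  replace c := gd_get c
  replace c := allL_get c (h1)
  replace c := gd_get c
  replace c := gd_get c
  exact absurd c (by decide)

end Pool.Agent.TH372.Pet
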