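import Pool.Agent.H160R2.CC.Final

set_option autoImplicit false

/-!
Tables for the colourings of three multipoles by the edges `0, …, 14` of the Petersen graph.
-/

namespace Pool.Agent.TH372.Pet

/-- all members of the list satisfy `p`, by plain recursion -/
def allL {α : Type} (p : α → Bool) (l : List α) : Bool :=
  List.rec (motive := fun _ => Bool) true (fun h _ ih => p h && ih) l

lemma allL_iff {α : Type} (p : α → Bool) (l : List α) : allL p l = true ↔ ∀ x ∈ l, p x = true := by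
  induction l with
  | nil => simp [allL]
  | cons h t ih =>
    have : allL p (h :: t) = (p h && allL p t) := rfl
    rw [this, Bool.and_eq_true, ih]
    simp

lemma allL_get {α : Type} {p : α → Bool} {l : List α} (h : allL p l = true) {x : α} (hx : x ∈ l) :
    p x = true := (allL_iff p l).1 h x hx

/-- `x = y` implies `b` -/
def gd (x y : ℕ) (b : Bool) : Bool := !(Nat.beq x y) || b

lemma gd_get {x : ℕ} {b : Bool} (h : gd x x b = true) : b = true := by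
  simpa [gd] using h

/-- `(b, c) ∈ nV a`: the edges `a`, `b`, `c` form a vertex star of the Petersen graph -/
def nV : ℕ → List (ℕ × ℕ)
  | 0 => [(1, 6), (4, 5), (5, 4), (6, 1)]
  | 1 => [(0, 6), (2, 7), (6, 0), (7, 2)]
  | 2 => [(1, 7), (3, 8), (7, 1), (8, 3)]
  | 3 => [(2, 8), (4, 9), (8, 2), (9, 4)]
  | 4 => [(0, 5), (3, 9), (5, 0), (9, 3)]
  | 5 => [(0, 4), (4, 0), (10, 13), (13, 10)]
  | 6 => [(0, 1), (1, 0), (11, 14), (14, 11)]
  | 7 => [(1, 2), (2, 1), (10, 12), (12, 10)]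
  | 8 => [(2, 3), (3, 2), (11, 13), (13, 11)]
  | 9 => [(3, 4), (4, 3), (12, 14), (14, 12)]
  | 10 => [(5, 13), (7, 12), (12, 7), (13, 5)]
  | 11 => [(6, 14), (8, 13), (13, 8), (14, 6)]
  | 12 => [(7, 10), (9, 14), (10, 7), (14, 9)]
  | 13 => [(5, 10), (8, 11), (10, 5), (11, 8)]
  | 14 => [(6, 11), (9, 12), (11, 6), (12, 9)]
  | _ => []

/-- colourings of the four legs of the multipole `Q` -/
def nQ : ℕ → List (ℕ × ℕ × ℕ)
  | 0 => [(0, 0, 0), (0, 1, 1), (0, 2, 2), (0, 3, 3), (0, 4, 4), (0, 5, 5), (0, 6, 6), (0, 7, 7),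
      (0, 9, 9), (0, 10, 10), (0, 11, 11), (0, 13, 13), (0, 14, 14), (1, 11, 14), (1, 14, 11),
      (4, 10, 13), (4, 13, 10), (5, 3, 9), (5, 9, 3), (6, 2, 7), (6, 7, 2)]
  | 1 => [(0, 11, 14), (0, 14, 11), (1, 0, 0), (1, 1, 1), (1, 2, 2), (1, 3, 3), (1, 4, 4),
      (1, 5, 5), (1, 6, 6), (1, 7, 7), (1, 8, 8), (1, 10, 10), (1, 11, 11), (1, 12, 12),
      (1, 14, 14), (2, 10, 12), (2, 12, 10), (6, 4, 5), (6, 5, 4), (7, 3, 8), (7, 8, 3)]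
  | 2 => [(1, 10, 12), (1, 12, 10), (2, 0, 0), (2, 1, 1), (2, 2, 2), (2, 3, 3), (2, 4, 4),
      (2, 6, 6), (2, 7, 7), (2, 8, 8), (2, 9, 9), (2, 10, 10), (2, 11, 11), (2, 12, 12),
      (2, 13, 13), (3, 11, 13), (3, 13, 11), (7, 0, 6), (7, 6, 0), (8, 4, 9), (8, 9, 4)]
  | 3 => [(2, 11, 13), (2, 13, 11), (3, 0, 0), (3, 1, 1), (3, 2, 2), (3, 3, 3), (3, 4, 4),
      (3, 5, 5), (3, 7, 7), (3, 8, 8), (3, 9, 9), (3, 11, 11), (3, 12, 12), (3, 13, 13),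
      (3, 14, 14), (4, 12, 14), (4, 14, 12), (8, 1, 7), (8, 7, 1), (9, 0, 5), (9, 5, 0)]
  | 4 => [(0, 10, 13), (0, 13, 10), (3, 12, 14), (3, 14, 12), (4, 0, 0), (4, 1, 1), (4, 2, 2),
      (4, 3, 3), (4, 4, 4), (4, 5, 5), (4, 6, 6), (4, 8, 8), (4, 9, 9), (4, 10, 10), (4, 12, 12),
      (4, 13, 13), (4, 14, 14), (5, 1, 6), (5, 6, 1), (9, 2, 8), (9, 8, 2)]
  | 5 => [(0, 3, 9), (0, 9, 3), (4, 1, 6), (4, 6, 1), (5, 0, 0), (5, 1, 1), (5, 3, 3), (5, 4, 4),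
      (5, 5, 5), (5, 6, 6), (5, 7, 7), (5, 8, 8), (5, 9, 9), (5, 10, 10), (5, 11, 11),
      (5, 12, 12), (5, 13, 13), (10, 8, 11), (10, 11, 8), (13, 7, 12), (13, 12, 7)]
  | 6 => [(0, 2, 7), (0, 7, 2), (1, 4, 5), (1, 5, 4), (6, 0, 0), (6, 1, 1), (6, 2, 2), (6, 4, 4),
      (6, 5, 5), (6, 6, 6), (6, 7, 7), (6, 8, 8), (6, 9, 9), (6, 11, 11), (6, 12, 12),
      (6, 13, 13), (6, 14, 14), (11, 9, 12), (11, 12, 9), (14, 8, 13), (14, 13, 8)]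
  | 7 => [(1, 3, 8), (1, 8, 3), (2, 0, 6), (2, 6, 0), (7, 0, 0), (7, 1, 1), (7, 2, 2), (7, 3, 3),
      (7, 5, 5), (7, 6, 6), (7, 7, 7), (7, 8, 8), (7, 9, 9), (7, 10, 10), (7, 12, 12),
      (7, 13, 13), (7, 14, 14), (10, 9, 14), (10, 14, 9), (12, 5, 13), (12, 13, 5)]
  | 8 => [(2, 4, 9), (2, 9, 4), (3, 1, 7), (3, 7, 1), (8, 1, 1), (8, 2, 2), (8, 3, 3), (8, 4, 4),
      (8, 5, 5), (8, 6, 6), (8, 7, 7), (8, 8, 8), (8, 9, 9), (8, 10, 10), (8, 11, 11),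
      (8, 13, 13), (8, 14, 14), (11, 5, 10), (11, 10, 5), (13, 6, 14), (13, 14, 6)]
  | 9 => [(3, 0, 5), (3, 5, 0), (4, 2, 8), (4, 8, 2), (9, 0, 0), (9, 2, 2), (9, 3, 3), (9, 4, 4),
      (9, 5, 5), (9, 6, 6), (9, 7, 7), (9, 8, 8), (9, 9, 9), (9, 10, 10), (9, 11, 11),
      (9, 12, 12), (9, 14, 14), (12, 6, 11), (12, 11, 6), (14, 7, 10), (14, 10, 7)]
  | 10 => [(5, 8, 11), (5, 11, 8), (7, 9, 14), (7, 14, 9), (10, 0, 0), (10, 1, 1), (10, 2, 2),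
      (10, 4, 4), (10, 5, 5), (10, 7, 7), (10, 8, 8), (10, 9, 9), (10, 10, 10), (10, 11, 11),
      (10, 12, 12), (10, 13, 13), (10, 14, 14), (12, 1, 2), (12, 2, 1), (13, 0, 4), (13, 4, 0)]
  | 11 => [(6, 9, 12), (6, 12, 9), (8, 5, 10), (8, 10, 5), (11, 0, 0), (11, 1, 1), (11, 2, 2),
      (11, 3, 3), (11, 5, 5), (11, 6, 6), (11, 8, 8), (11, 9, 9), (11, 10, 10), (11, 11, 11),
      (11, 12, 12), (11, 13, 13), (11, 14, 14), (13, 2, 3), (13, 3, 2), (14, 0, 1), (14, 1, 0)]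
  | 12 => [(7, 5, 13), (7, 13, 5), (9, 6, 11), (9, 11, 6), (10, 1, 2), (10, 2, 1), (12, 1, 1),
      (12, 2, 2), (12, 3, 3), (12, 4, 4), (12, 5, 5), (12, 6, 6), (12, 7, 7), (12, 9, 9),
      (12, 10, 10), (12, 11, 11), (12, 12, 12), (12, 13, 13), (12, 14, 14), (14, 3, 4),
      (14, 4, 3)]
  | 13 => [(5, 7, 12), (5, 12, 7), (8, 6, 14), (8, 14, 6), (10, 0, 4), (10, 4, 0), (11, 2, 3),
      (11, 3, 2), (13, 0, 0), (13, 2, 2), (13, 3, 3), (13, 4, 4), (13, 5, 5), (13, 6, 6),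
      (13, 7, 7), (13, 8, 8), (13, 10, 10), (13, 11, 11), (13, 12, 12), (13, 13, 13),
      (13, 14, 14)]
  | 14 => [(6, 8, 13), (6, 13, 8), (9, 7, 10), (9, 10, 7), (11, 0, 1), (11, 1, 0), (12, 3, 4),
      (12, 4, 3), (14, 0, 0), (14, 1, 1), (14, 3, 3), (14, 4, 4), (14, 6, 6), (14, 7, 7),
      (14, 8, 8), (14, 9, 9), (14, 10, 10), (14, 11, 11), (14, 12, 12), (14, 13, 13),
      (14, 14, 14)]
  | _ => []

/-- colourings of the four legs of the multipole `M` -/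
def nM : ℕ → List (ℕ × ℕ × ℕ)
  | 0 => [(0, 2, 2), (0, 3, 3), (0, 7, 7), (0, 8, 8), (0, 9, 9), (0, 10, 10), (0, 11, 11),
      (0, 12, 12), (0, 13, 13), (0, 14, 14), (1, 0, 1), (1, 1, 0), (4, 0, 4), (4, 4, 0),
      (5, 0, 5), (5, 5, 0), (6, 0, 6), (6, 6, 0)]
  | 1 => [(0, 0, 1), (0, 1, 0), (1, 3, 3), (1, 4, 4), (1, 5, 5), (1, 8, 8), (1, 9, 9),
      (1, 10, 10), (1, 11, 11), (1, 12, 12), (1, 13, 13), (1, 14, 14), (2, 1, 2), (2, 2, 1),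
      (6, 1, 6), (6, 6, 1), (7, 1, 7), (7, 7, 1)]
  | 2 => [(1, 1, 2), (1, 2, 1), (2, 0, 0), (2, 4, 4), (2, 5, 5), (2, 6, 6), (2, 9, 9),
      (2, 10, 10), (2, 11, 11), (2, 12, 12), (2, 13, 13), (2, 14, 14), (3, 2, 3), (3, 3, 2),
      (7, 2, 7), (7, 7, 2), (8, 2, 8), (8, 8, 2)]
  | 3 => [(2, 2, 3), (2, 3, 2), (3, 0, 0), (3, 1, 1), (3, 5, 5), (3, 6, 6), (3, 7, 7),
      (3, 10, 10), (3, 11, 11), (3, 12, 12), (3, 13, 13), (3, 14, 14), (4, 3, 4), (4, 4, 3),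
      (8, 3, 8), (8, 8, 3), (9, 3, 9), (9, 9, 3)]
  | 4 => [(0, 0, 4), (0, 4, 0), (3, 3, 4), (3, 4, 3), (4, 1, 1), (4, 2, 2), (4, 6, 6), (4, 7, 7),
      (4, 8, 8), (4, 10, 10), (4, 11, 11), (4, 12, 12), (4, 13, 13), (4, 14, 14), (5, 4, 5),
      (5, 5, 4), (9, 4, 9), (9, 9, 4)]
  | 5 => [(0, 0, 5), (0, 5, 0), (4, 4, 5), (4, 5, 4), (5, 1, 1), (5, 2, 2), (5, 3, 3), (5, 6, 6),
      (5, 7, 7), (5, 8, 8), (5, 9, 9), (5, 11, 11), (5, 12, 12), (5, 14, 14), (10, 5, 10),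
      (10, 10, 5), (13, 5, 13), (13, 13, 5)]
  | 6 => [(0, 0, 6), (0, 6, 0), (1, 1, 6), (1, 6, 1), (6, 2, 2), (6, 3, 3), (6, 4, 4), (6, 5, 5),
      (6, 7, 7), (6, 8, 8), (6, 9, 9), (6, 10, 10), (6, 12, 12), (6, 13, 13), (11, 6, 11),
      (11, 11, 6), (14, 6, 14), (14, 14, 6)]
  | 7 => [(1, 1, 7), (1, 7, 1), (2, 2, 7), (2, 7, 2), (7, 0, 0), (7, 3, 3), (7, 4, 4), (7, 5, 5),
      (7, 6, 6), (7, 8, 8), (7, 9, 9), (7, 11, 11), (7, 13, 13), (7, 14, 14), (10, 7, 10),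
      (10, 10, 7), (12, 7, 12), (12, 12, 7)]
  | 8 => [(2, 2, 8), (2, 8, 2), (3, 3, 8), (3, 8, 3), (8, 0, 0), (8, 1, 1), (8, 4, 4), (8, 5, 5),
      (8, 6, 6), (8, 7, 7), (8, 9, 9), (8, 10, 10), (8, 12, 12), (8, 14, 14), (11, 8, 11),
      (11, 11, 8), (13, 8, 13), (13, 13, 8)]
  | 9 => [(3, 3, 9), (3, 9, 3), (4, 4, 9), (4, 9, 4), (9, 0, 0), (9, 1, 1), (9, 2, 2), (9, 5, 5),
      (9, 6, 6), (9, 7, 7), (9, 8, 8), (9, 10, 10), (9, 11, 11), (9, 13, 13), (12, 9, 12),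
      (12, 12, 9), (14, 9, 14), (14, 14, 9)]
  | 10 => [(5, 5, 10), (5, 10, 5), (7, 7, 10), (7, 10, 7), (10, 0, 0), (10, 1, 1), (10, 2, 2),
      (10, 3, 3), (10, 4, 4), (10, 6, 6), (10, 8, 8), (10, 9, 9), (10, 11, 11), (10, 14, 14),
      (12, 10, 12), (12, 12, 10), (13, 10, 13), (13, 13, 10)]
  | 11 => [(6, 6, 11), (6, 11, 6), (8, 8, 11), (8, 11, 8), (11, 0, 0), (11, 1, 1), (11, 2, 2),
      (11, 3, 3), (11, 4, 4), (11, 5, 5), (11, 7, 7), (11, 9, 9), (11, 10, 10), (11, 12, 12),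
      (13, 11, 13), (13, 13, 11), (14, 11, 14), (14, 14, 11)]
  | 12 => [(7, 7, 12), (7, 12, 7), (9, 9, 12), (9, 12, 9), (10, 10, 12), (10, 12, 10),
      (12, 0, 0), (12, 1, 1), (12, 2, 2), (12, 3, 3), (12, 4, 4), (12, 5, 5), (12, 6, 6),
      (12, 8, 8), (12, 11, 11), (12, 13, 13), (14, 12, 14), (14, 14, 12)]
  | 13 => [(5, 5, 13), (5, 13, 5), (8, 8, 13), (8, 13, 8), (10, 10, 13), (10, 13, 10),
      (11, 11, 13), (11, 13, 11), (13, 0, 0), (13, 1, 1), (13, 2, 2), (13, 3, 3), (13, 4, 4),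
      (13, 6, 6), (13, 7, 7), (13, 9, 9), (13, 12, 12), (13, 14, 14)]
  | 14 => [(6, 6, 14), (6, 14, 6), (9, 9, 14), (9, 14, 9), (11, 11, 14), (11, 14, 11),
      (12, 12, 14), (12, 14, 12), (14, 0, 0), (14, 1, 1), (14, 2, 2), (14, 3, 3), (14, 4, 4),
      (14, 5, 5), (14, 7, 7), (14, 8, 8), (14, 10, 10), (14, 13, 13)]
  | _ => []

/-- star relation -/
def V (a b c : ℕ) : Prop := (b, c) ∈ nV a

/-- leg relation of `Q` -/
def TQ (a b c d : ℕ) : Prop := (b, c, d) ∈ nQ a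

/-- leg relation of `M` -/
def TM (a b c d : ℕ) : Prop := (b, c, d) ∈ nM a

/-- boolean form of `TQ` -/
def bQ (a b c d : ℕ) : Bool :=
  !(allL (fun x => !(Nat.beq x.1 b && (Nat.beq x.2.1 c && Nat.beq x.2.2 d))) (nQ a))

/-- boolean form of `TM` -/
def bM (a b c d : ℕ) : Bool :=
  !(allL (fun x => !(Nat.beq x.1 b && (Nat.beq x.2.1 c && Nat.beq x.2.2 d))) (nM a))

lemma bQ_get {a b c d : ℕ} (h : bQ a b c d = true) : TQ a b c d := by
  unfold bQ at h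
  by_contra hno
  have : allL (fun x : ℕ × ℕ × ℕ => !(Nat.beq x.1 b && (Nat.beq x.2.1 c && Nat.beq x.2.2 d)))
      (nQ a) = true := by
    rw [allL_iff]
    rintro ⟨x, y, z⟩ hx
    by_contra hb
    simp at hb
    obtain ⟨rfl, rfl, rfl⟩ := hb
    exact hno hx
  rw [this] at h
  exact absurd h (by decide)

lemma bM_get {a b c d : ℕ} (h : bM a b c d = true) : TM a b c d := by
  unfold bM at h
  by_contra hno
  have : allL (fun x : ℕ × ℕ × ℕ => !(Nat.beq x.1 b && (Nat.beq x.2.1 c && Nat.beq x.2.2 d)))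
      (nM a) = true := by
    rw [allL_iff]
    rintro ⟨x, y, z⟩ hx
    by_contra hb
    simp at hb
    obtain ⟨rfl, rfl, rfl⟩ := hb
    exact hno hx
  rw [this] at h
  exact absurd h (by decide)

/-- the numbers `0, …, 14` -/
def L15 : List ℕ := [0, 1, 2, 3, 4, 5, 6, 7, 8, 9, 10, 11, 12, 13, 14]

lemma mem_L15 {a : ℕ} (h : a < 15) : a ∈ L15 := by
  unfold L15; interval_cases a <;> simp

/-- symmetry checks -/
def symQ : Bool := allL (fun a => allL (fun t =>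
  bQ t.1 a t.2.1 t.2.2 && bQ t.2.1 t.2.2 a t.1 && bQ a t.1 t.2.2 t.2.1) (nQ a)) L15

def symM : Bool := allL (fun a => allL (fun t =>
  bM t.1 a t.2.1 t.2.2 && bM t.2.1 t.2.2 a t.1 && bM a t.1 t.2.2 t.2.1) (nM a)) L15

/-- all second to fourth entries are less than `15` -/
def bdd : Bool :=
  allL (fun a => allL (fun t => Nat.blt t.1 15 && Nat.blt t.2 15) (nV a)) L15 &&
  allL (fun a => allL (fun t => Nat.blt t.1 15 && Nat.blt t.2.1 15 && Nat.blt t.2.2 15) (nQ a))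
    L15 &&
  allL (fun a => allL (fun t => Nat.blt t.1 15 && Nat.blt t.2.1 15 && Nat.blt t.2.2 15) (nM a))
    L15

lemma symQ_ok : symQ = true := by decide +kernel
lemma symM_ok : symM = true := by decide +kernel

lemma lt_of_nV {a : ℕ} {t : ℕ × ℕ} (h : t ∈ nV a) : a < 15 := by
  by_contra hno
  have : nV a = [] := by
    match a, hno with
    | 0, h | 1, h | 2, h | 3, h | 4, h | 5, h | 6, h | 7, h | 8, h | 9, h | 10, h | 11, h | 12, h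
    | 13, h | 14, h => exact absurd (by decide) h
    | (n + 15), _ => rfl
  rw [this] at h
  simp at h

lemma lt_of_nQ {a : ℕ} {t : ℕ × ℕ × ℕ} (h : t ∈ nQ a) : a < 15 := by
  by_contra hno
  have : nQ a = [] := by
    match a, hno with
    | 0, h | 1, h | 2, h | 3, h | 4, h | 5, h | 6, h | 7, h | 8, h | 9, h | 10, h | 11, h | 12, h
    | 13, h | 14, h => exact absurd (by decide) h
    | (n + 15), _ => rfl
  rw [this] at h
  simp at h

lemma lt_of_nM {a : ℕ} {t : ℕ × ℕ × ℕ} (h : t ∈ nM a) : a < 15 := by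
  by_contra hno
  have : nM a = [] := by
    match a, hno with
    | 0, h | 1, h | 2, h | 3, h | 4, h | 5, h | 6, h | 7, h | 8, h | 9, h | 10, h | 11, h | 12, h
    | 13, h | 14, h => exact absurd (by decide) h
    | (n + 15), _ => rfl
  rw [this] at h
  simp at h

lemma TQ.sym1 {a b c d : ℕ} (h : TQ a b c d) : TQ b a c d := by
  have h1 := allL_get (allL_get symQ_ok (mem_L15 (lt_of_nQ h))) h
  simp only [Bool.and_eq_true] at h1
  exact bQ_get h1.1.1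

lemma TQ.sym2 {a b c d : ℕ} (h : TQ a b c d) : TQ c d a b := by
  have h1 := allL_get (allL_get symQ_ok (mem_L15 (lt_of_nQ h))) h
  simp only [Bool.and_eq_true] at h1
  exact bQ_get h1.1.2

lemma TQ.sym3 {a b c d : ℕ} (h : TQ a b c d) : TQ a b d c := by
  have h1 := allL_get (allL_get symQ_ok (mem_L15 (lt_of_nQ h))) h
  simp only [Bool.and_eq_true] at h1
  exact bQ_get h1.2

lemma TM.sym1 {a b c d : ℕ} (h : TM a b c d) : TM b a c d := by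
  have h1 := allL_get (allL_get symM_ok (mem_L15 (lt_of_nM h))) h
  simp only [Bool.and_eq_true] at h1
  exact bM_get h1.1.1

lemma TM.sym2 {a b c d : ℕ} (h : TM a b c d) : TM c d a b := by
  have h1 := allL_get (allL_get symM_ok (mem_L15 (lt_of_nM h))) h
  simp only [Bool.and_eq_true] at h1
  exact bM_get h1.1.2

lemma TM.sym3 {a b c d : ℕ} (h : TM a b c d) : TM a b d c := by
  have h1 := allL_get (allL_get symM_ok (mem_L15 (lt_of_nM h))) h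
  simp only [Bool.and_eq_true] at h1
  exact bM_get h1.2

end Pool.Agent.TH372.Pet
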